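import Pool.Agent.Lib.MP_d90615_co.PC.Main

/-!
# `ε* ≤ 1/31`: approximate negative correlation of all pairs of edges in the uniform forest

Every finite multigraph is `ε`-correlated for every `ε ≥ 1/31`.

Proof.  For a set `S` of edges put `H(A) = ∑_F det (1 + J_F A)`, summed over the forests
`F ⊆ S`, where `J_F` is the 0-1 matrix of the connectivity relation of `F`.  By induction on the
edges `H(A) ≠ 0` whenever `A` has positive definite imaginary part.  Hence
`H(A) H(A + vvᵀ + wwᵀ) ≤ H(A + vvᵀ) H(A + wwᵀ)` for real symmetric `A` (`rayleigh'`, `rayleighT`).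

Three terminal inequality (`three_terminals`): for distinct vertices `a, b, c` the numbers
`y_s` of forests with the connectivity pattern `s` on `{a, b, c}` satisfy
`y_abc y_∅ ≥ y_ab y_bc + y_bc y_ca + y_ca y_ab`.  It is proved by induction on the edges, with
the Rayleigh inequality at `A = s · diag(1, 1, 1)` for `s → ∞`.

Four terminals (`tq_nonneg`): for the ends `a, b` of `e` and `c, d` of `f` let `x` be the vector of
the fifteen numbers of forests with a given connectivity pattern on `{a, b, c, d}`.  The Rayleigh
inequality at a `4 × 4` matrix `A`, `v = (1, -1, 0, 0)`, `w = (0, 0, 1, -1)`, is a quadratic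
inequality in `x`; so are the three terminal inequalities of the graph and of the graphs in which
one more pair of the four vertices is glued.  The wanted inequality `31 N N_ef ≤ 32 N_e N_f`, times
a positive linear form in `x`, is a combination of these quadratic inequalities, for fourteen
explicit `A` with entries in `(1/20)ℤ` and for the images under the eight symmetries of
`{{a, b}, {c, d}}`, with nonnegative linear forms in `x` as coefficients, up to a cubic form with
nonnegative coefficients.  The `680` coefficients are computed by the kernel (`chkF`, `chkS`).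
-/

namespace Pool.Agent.Results.MP_d90615_co.AllPairsOneThirtyFirst

open Finset Pool.Agent.Lib.MP_d90615_co
open scoped Classical

/-- The spanning forests of the finite multigraph with edge set `E`, vertex set `V` and end map
`ends`: the sets of edges that contain no cycle. -/
noncomputable def forests {V E : Type*} [Fintype E] (ends : E → Sym2 V) : Finset (Finset E) :=
  univ.filter fun F => ¬ HasCycle ends F

/-- Probability of the event `p` for a uniformly random spanning forest. -/
noncomputable def prob {V E : Type*} [Fintype E] (ends : E → Sym2 V) (p : Finset E → Prop) : ℝ :=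
  (((forests ends).filter p).card : ℝ) / ((forests ends).card : ℝ)

/-- The graph is `ε`-correlated. -/
def EpsCorrelated {V E : Type*} [Fintype E] (ends : E → Sym2 V) (ε : ℝ) : Prop :=
  ∀ e f : E, e ≠ f →
    prob ends (fun F => e ∈ F ∧ f ∈ F) ≤
      (1 + ε) * prob ends (fun F => e ∈ F) * prob ends (fun F => f ∈ F)

lemma card_eq {V E : Type*} [Fintype E] (ends : E → Sym2 V)
    (hloop : ∀ e, ¬ (ends e).IsDiag) (p : Finset E → Prop) :
    (((forests ends).filter p).card : ℝ) =
      ∑ F : Finset E, (if Forest ends F ∧ p F then 1 else 0 : ℝ) := by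
  rw [forests, Finset.filter_filter, Finset.card_filter]
  push_cast
  refine Finset.sum_congr rfl fun F _ => ?_
  simp only [forest_iff hloop F]

/-- Every finite loopless multigraph is `ε`-correlated for every `ε ≥ 1/31`. -/
theorem result {V E : Type*} [Fintype V] [Fintype E] (ends : E → Sym2 V)
    (hloop : ∀ e, ¬ (ends e).IsDiag) (ε : ℝ) (hε : 1 / 31 ≤ ε) : EpsCorrelated ends ε := by
  intro e f hef
  -- the edge set as `insert e (insert f S)`
  set S : Finset E := (univ.erase e).erase f with hS
  have hfS : f ∉ S := Finset.notMem_erase _ _
  have hins : insert f S = univ.erase e := by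
    rw [hS]
    exact Finset.insert_erase (by simp [hef.symm])
  have heS : e ∉ insert f S := by
    rw [hins]
    exact Finset.notMem_erase _ _
  have huniv : insert e (insert f S) = univ := by
    rw [hins]
    exact Finset.insert_erase (Finset.mem_univ _)
  have hmain := PC.pairs_bound ends hloop S heS hfS
  rw [huniv, Finset.powerset_univ] at hmain
  have c0 : ((forests ends).card : ℝ) = ∑ F : Finset E, (if Forest ends F then 1 else 0 : ℝ) := by
    have := card_eq ends hloop (fun _ => True)
    simpa using this
  have hpos : (0 : ℝ) < ((forests ends).card : ℝ) := by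
    rw [c0]
    refine Finset.sum_pos' (fun F _ => by split_ifs <;> norm_num) ⟨∅, Finset.mem_univ _, ?_⟩
    have : Forest ends (∅ : Finset E) := by
      intro g hg
      simp at hg
    simp [this]
  have c1 : prob ends (fun F => e ∈ F) * ((forests ends).card : ℝ) =
      ∑ F : Finset E, (if Forest ends F ∧ e ∈ F then 1 else 0 : ℝ) := by
    rw [prob, div_mul_cancel₀ _ hpos.ne', card_eq ends hloop]
    exact Finset.sum_congr rfl fun F _ => by congr
  have c2 : prob ends (fun F => f ∈ F) * ((forests ends).card : ℝ) =
      ∑ F : Finset E, (if Forest ends F ∧ f ∈ F then 1 else 0 : ℝ) := by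
    rw [prob, div_mul_cancel₀ _ hpos.ne', card_eq ends hloop]
    exact Finset.sum_congr rfl fun F _ => by congr
  have c3 : prob ends (fun F => e ∈ F ∧ f ∈ F) * ((forests ends).card : ℝ) =
      ∑ F : Finset E, (if Forest ends F ∧ e ∈ F ∧ f ∈ F then 1 else 0 : ℝ) := by
    rw [prob, div_mul_cancel₀ _ hpos.ne', card_eq ends hloop]
    exact Finset.sum_congr rfl fun F _ => by congr
  rw [← c0, ← c1, ← c2, ← c3] at hmain
  set N : ℝ := ((forests ends).card : ℝ)
  set a : ℝ := prob ends (fun F => e ∈ F ∧ f ∈ F)
  set b : ℝ := prob ends (fun F => e ∈ F) with hb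
  set c : ℝ := prob ends (fun F => f ∈ F) with hc
  have hb0 : 0 ≤ b := by
    rw [hb, prob]
    positivity
  have hc0 : 0 ≤ c := by
    rw [hc, prob]
    positivity
  have h1 : (31 * a) * (N * N) ≤ (32 * b * c) * (N * N) := by nlinarith
  have h2 : 31 * a ≤ 32 * b * c := le_of_mul_le_mul_right h1 (mul_pos hpos hpos)
  nlinarith [mul_nonneg (mul_nonneg hb0 hc0) (sub_nonneg.mpr hε)]

end Pool.Agent.Results.MP_d90615_co.AllPairsOneThirtyFirst
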