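import Mathlib
import Pool.Agent.Lib.MP_d90615_co.Cycle
import Pool.Agent.Lib.MP_d90615_co.TW.Pair
import Pool.Agent.Lib.MP_d90615_co.PW.Multi
import Pool.Agent.Lib.MP_d90615_co.MJ.DHMain

/-!
# Negative correlation in weighted distance-hereditary graphs

A random spanning forest `F` of a finite multigraph is chosen with probability proportional to the
product of the weights of its edges.  Let the vertices be divided into blocks, and let the total
weight of the edges between `u` and `v` be `x_u x_v T_ij` whenever `u`, `v` lie in different blocks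
`i`, `j`, where `x, T ≥ 0` and the symmetric `T` is twin reducible: every set of at least two
blocks contains two blocks `i`, `j` whose rows are proportional on the rest of the set
(for `0/1`-matrices: `T` is the adjacency matrix of a distance-hereditary graph).  The weights
inside the blocks are arbitrary.  Then `P(e, f ∈ F) ≤ P(e ∈ F) P(f ∈ F)` for any two edges that
join different blocks, but not the same two blocks.  With blocks of one vertex this is the
statement for all pairs of edges of the graph.

Proof.  By a limit `T > 0`.  Then, after a change of names of the four ends, the vertices split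
into three parts that are pairwise joined with product weights; two of the ends are alone in their
parts.  If the other two ends belong to different edges, the two edges together see every part
through a real stable polynomial in one or three variables, and the inequality follows from a
Heilmann-Lieb argument.  If the other two ends are `a`, `b`, then the parts of `c` and `d` form a
graph that is joined to the rest by a cut of rank one; this graph enters only through
`F(l) = ∑_F w^F ∏_C (1 + l x_C)`, which is real rooted, and through
`F(0) F_1 - F_1(0) F`, where `F_1` is the polynomial after the contraction of `f`.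
This difference is a nonnegative combination of the polynomials
`l^2 ∏_{k ≠ i, j} (1 + θ_k l)`, where `F = F(0) ∏_k (1 + θ_k l)`; hence the graph may be replaced
by independent vertices and `f` by a pair of twins, which is settled by induction.
-/

namespace Pool.Agent.Results.MP_d90615_co.DistanceHereditary

open Finset Pool.Agent.Lib.MP_d90615_co
open scoped Classical

universe u

/-- The spanning forests of the finite multigraph with edge set `E`, vertex set `V` and end map
`ends`: the sets of edges that contain no cycle. -/
noncomputable def forests {V E : Type*} [Fintype E] (ends : E → Sym2 V) : Finset (Finset E) :=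
  univ.filter fun F => ¬ HasCycle ends F

/-- Probability of the event `p` for a random spanning forest `F` chosen with probability
proportional to the product of the weights of its edges (`w = 1`: uniformly). -/
noncomputable def prob {V E : Type*} [Fintype E] (ends : E → Sym2 V) (w : E → ℝ)
    (p : Finset E → Prop) : ℝ :=
  (∑ F ∈ (forests ends).filter p, ∏ g ∈ F, w g) / ∑ F ∈ forests ends, ∏ g ∈ F, w g

/-- The total weight of the edges with ends `u` and `v`. -/
noncomputable def weight {V E : Type*} [Fintype E] (ends : E → Sym2 V) (w : E → ℝ) (u v : V) : ℝ :=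
  ∑ g ∈ univ.filter (fun g => ends g = s(u, v)), w g

/-- Every set of at least two indices contains two indices whose rows are proportional on the rest
of the set. -/
def TwinReducible {K : Type*} (T : K → K → ℝ) : Prop :=
  ∀ S : Finset K, 1 < S.card → ∃ i ∈ S, ∃ j ∈ S, i ≠ j ∧
    ∃ c : ℝ, 0 ≤ c ∧ ∀ k ∈ S, k ≠ i → k ≠ j → T j k = c * T i k

/-- From the Rayleigh difference to the probabilities. -/
theorem prob_le {V E : Type*} [Fintype V] [Fintype E] (ends : E → Sym2 V)
    (hloop : ∀ g, ¬ (ends g).IsDiag) (w : E → ℝ) (hw : ∀ g, 0 ≤ w g) (e f : E) (hef : e ≠ f)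
    (hR : w e ≠ 0 → w f ≠ 0 → ends e ≠ ends f →
      0 ≤ Pool.Agent.PW.Ray (Pool.Agent.PW.tot ends w) (ends e) (ends f)) :
    prob ends w (fun F => e ∈ F ∧ f ∈ F) ≤
      prob ends w (fun F => e ∈ F) * prob ends w (fun F => f ∈ F) := by
  have hZ : ∑ F ∈ forests ends, ∏ g ∈ F, w g = Pool.Agent.PW.Z (Pool.Agent.PW.tot ends w) := by
    rw [← Pool.Agent.PW.FS_eq, Pool.Agent.PW.FS, forests]
    refine Finset.sum_congr ?_ fun _ _ => rfl
    ext F
    rw [mem_filter, mem_filter, forest_iff hloop]
  have hpos : 0 < ∑ F ∈ forests ends, ∏ g ∈ F, w g := by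
    have h0 : (∅ : Finset E) ∈ forests ends := by
      rw [forests, mem_filter]
      refine ⟨mem_univ _, ?_⟩
      rintro ⟨n, v, c, _, _, h⟩
      exact absurd (h 0).1 (Finset.notMem_empty _)
    refine lt_of_lt_of_le one_pos ?_
    have h1 := Finset.single_le_sum (f := fun F : Finset E => ∏ g ∈ F, w g)
      (fun F _ => Finset.prod_nonneg fun g _ => hw g) h0
    simpa using h1
  have hm : ∀ g : E, prob ends w (fun F => g ∈ F) =
      w g * Pool.Agent.PW.N (Pool.Agent.PW.tot ends w) (ends g) /
        ∑ F ∈ forests ends, ∏ g ∈ F, w g := by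
    intro g
    rw [← Pool.Agent.PW.sum_mem, prob]
    congr 1
    refine Finset.sum_congr ?_ fun _ _ => rfl
    ext F
    simp only [forests, mem_filter, mem_univ, true_and, forest_iff hloop]
  have hmm : prob ends w (fun F => e ∈ F ∧ f ∈ F) =
      (if ends e = ends f then 0
      else w e * (w f * Pool.Agent.PW.N2 (Pool.Agent.PW.tot ends w) (ends e) (ends f))) /
        ∑ F ∈ forests ends, ∏ g ∈ F, w g := by
    rw [← Pool.Agent.PW.sum_mem_mem ends w hef, prob]
    congr 1
    refine Finset.sum_congr ?_ fun _ _ => rfl
    ext F
    simp only [forests, mem_filter, mem_univ, true_and, forest_iff hloop]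
  rw [hm, hm, hmm, div_mul_div_comm, div_le_div_iff₀ hpos (mul_pos hpos hpos), hZ]
  set W := Pool.Agent.PW.tot ends w with hW
  rw [hZ] at hpos
  have hWnn : ∀ g, 0 ≤ W g := fun g => Finset.sum_nonneg fun _ _ => hw _
  have hN : ∀ g, 0 ≤ Pool.Agent.PW.N W g := fun g =>
    Finset.sum_nonneg fun F _ => Finset.prod_nonneg fun _ _ => hWnn _
  have hnn : 0 ≤ w e * Pool.Agent.PW.N W (ends e) * (w f * Pool.Agent.PW.N W (ends f)) := by
    have := hw e
    have := hw f
    have := hN (ends e)
    have := hN (ends f)
    positivity
  split_ifs with h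
  · rw [zero_mul]
    positivity
  · by_cases he : w e = 0
    · simp [he]
    by_cases hf : w f = 0
    · simp [hf]
    have hR' := hR he hf h
    unfold Pool.Agent.PW.Ray at hR'
    have h3 : 0 ≤ w e * w f * Pool.Agent.PW.Z W := by
      have := hw e
      have := hw f
      positivity
    nlinarith [mul_nonneg h3 hR']

/-- **Negative correlation** for all pairs of edges of a weighted distance-hereditary graph, and
for the edges between the blocks if the vertices of such a graph are replaced by arbitrary weighted
graphs.  The weights of the edges parallel to `e` or `f` are arbitrary. -/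
theorem result {V K : Type u} {E : Type*} [Fintype V] [Fintype K] [Fintype E] (ends : E → Sym2 V)
    (hloop : ∀ g, ¬ (ends g).IsDiag) (w : E → ℝ) (hw : ∀ g, 0 ≤ w g) (e f : E) (hef : e ≠ f)
    (r : V → K) (x : V → ℝ) (T : K → K → ℝ) (hx : ∀ v, 0 ≤ x v) (hT : ∀ i j, 0 ≤ T i j)
    (hTs : ∀ i j, T i j = T j i) (hTr : TwinReducible T)
    (hW : ∀ u v, r u ≠ r v → s(u, v) ≠ ends e → s(u, v) ≠ ends f →
      weight ends w u v = x u * x v * T (r u) (r v))
    (he : ¬ ((ends e).map r).IsDiag) (hf : ¬ ((ends f).map r).IsDiag)
    (h : ends e = ends f ∨ (ends e).map r ≠ (ends f).map r) :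
    prob ends w (fun F => e ∈ F ∧ f ∈ F) ≤
      prob ends w (fun F => e ∈ F) * prob ends w (fun F => f ∈ F) := by
  refine prob_le ends hloop w hw e f hef fun _ _ hne => ?_
  have hmap := h.resolve_left hne
  obtain ⟨a, b, hab⟩ : ∃ a b, ends e = s(a, b) := by
    induction h : ends e using Sym2.ind with
    | _ u v => exact ⟨u, v, rfl⟩
  obtain ⟨c, d, hcd⟩ : ∃ c d, ends f = s(c, d) := by
    induction h : ends f using Sym2.ind with
    | _ u v => exact ⟨u, v, rfl⟩
  rw [hab, Sym2.map_mk, Sym2.mk_isDiag_iff] at he
  rw [hcd, Sym2.map_mk, Sym2.mk_isDiag_iff] at hf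
  rw [hab, hcd, Sym2.map_mk, Sym2.map_mk] at hmap
  rw [hab, hcd] at hW
  rw [hab, hcd]
  set T' : Sym2 K → ℝ := Sym2.lift ⟨T, hTs⟩ with hT'
  have hTmk : ∀ i j, T' s(i, j) = T i j := fun i j => rfl
  refine Pool.Agent.MJ.red_ray (Pool.Agent.PW.tot ends w)
    (fun g => Finset.sum_nonneg fun _ _ => hw _) x hx r T' (fun g => ?_) (fun S hS => ?_)
    he hf hmap (fun u v huv h1 h2 => ?_)
  · induction g using Sym2.ind with
    | _ i j => exact hT i j
  · obtain ⟨i, hi, j, hj, hij, γ, hγ, hk⟩ := hTr S hS
    exact ⟨i, hi, j, hj, hij, γ, hγ, fun k hk1 hk2 hk3 => hk k hk1 hk2 hk3⟩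
  · rw [hTmk, ← hW u v huv h1 h2]
    rfl

end Pool.Agent.Results.MP_d90615_co.DistanceHereditary
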