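import Mathlib
import Pool.Agent.Lib.MP_d90615_co.CL.Law
import Pool.Agent.Lib.MP_d90615_co.SC.Main

/-!
# Star and triangle: networks with three terminals, for spanning forests

A part of a weighted graph which is attached to the rest at three vertices acts on the spanning
forests like a star and a triangle on these three vertices, with nonnegative weights.

Proof.  The forests of the part give five sums (one for each partition of the three terminals).
These are the sums of a star and a triangle if and only if two inequalities hold: the three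
terminal inequality and the three point inequality for forests.  Both follow from the stability
of `∑_F det (1 + J_F A)`.  Negative correlation in the reduced graph is a sum of squares if the
edge is on no cycle with 8 or more edges.
-/

namespace Pool.Agent.Results.MP_d90615_co.StarTriangle

open Finset Pool.Agent.Lib.MP_d90615_co
open scoped Classical

attribute [-instance] instDecidableEqSum instDecidableEqProd Subtype.instDecidableEq

/-- The spanning forests of the finite multigraph with edge set `E`, vertex set `V` and end map
`ends`: the sets of edges that contain no cycle. -/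
noncomputable def forests {V E : Type*} [Fintype E] (ends : E → Sym2 V) : Finset (Finset E) :=
  univ.filter fun F => ¬ HasCycle ends F

/-- Probability of the event `p` for a random spanning forest `F` chosen with probability
proportional to the product of the weights of its edges (`w = 1`: uniformly). -/
noncomputable def prob {V E : Type*} [Fintype E] (ends : E → Sym2 V) (w : E → ℝ)
    (p : Finset E → Prop) : ℝ :=
  (∑ F ∈ (forests ends).filter p, ∏ g ∈ F, w g) / ∑ F ∈ forests ends, ∏ g ∈ F, w g

/-- The vertices `v` with `κ v = none` are kept, those with `κ v = some k` form the `k`-th piece.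
An edge is kept if both its ends are kept. -/
def Kept {V E K : Type*} (ends : E → Sym2 V) (κ : V → Option K) (g : E) : Prop :=
  ∀ v ∈ ends g, κ v = none

/-- The reduced multigraph: the kept edges; and for every piece `k` a new vertex `k`, joined to
the three vertices `T k 0`, `T k 1`, `T k 2` by the edges `(k, 0)`, `(k, 1)`, `(k, 2)`, and the
edges `(k, 3)`, `(k, 4)`, `(k, 5)` of the triangle on these three vertices. -/
def reduced {V E K : Type*} (ends : E → Sym2 V) (κ : V → Option K) (T : K → Fin 3 → V) :
    {g // Kept ends κ g} ⊕ (K × Fin 6) → Sym2 (V ⊕ K)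
  | .inl g => (ends g).map Sum.inl
  | .inr (k, j) => ![s(.inl (T k 0), .inr k), s(.inl (T k 1), .inr k), s(.inl (T k 2), .inr k),
      s(.inl (T k 0), .inl (T k 1)), s(.inl (T k 1), .inl (T k 2)),
      s(.inl (T k 0), .inl (T k 2))] j

/-- `e` lies on no cycle with 8 or more edges: if distinct vertices `v 0, …, v (n+1)` and distinct
edges `c 0, …, c (n+1)` with ends `v i`, `v (i+1)` (indices modulo `n+2`) form a cycle and `e` is
one of its edges, then `n + 2 ≤ 7`. -/
def OnShortCycles {V E : Type*} (ends : E → Sym2 V) (e : E) : Prop :=
  ∀ (n : ℕ) (v : Fin (n + 2) → V) (c : Fin (n + 2) → E), Function.Injective v →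
    Function.Injective c → (∀ i, ends (c i) = s(v i, v (i + 1))) → (∃ i, c i = e) → n + 2 ≤ 7

/-- The sum over the forests with the property `p`. -/
noncomputable def num {V E : Type*} [Fintype E] (ends : E → Sym2 V) (w : E → ℝ)
    (p : Finset E → Prop) : ℝ :=
  ∑ F : Finset E, if Forest ends F ∧ p F then ∏ g ∈ F, w g else 0

lemma prob_eq {V E : Type*} [Fintype E] (ends : E → Sym2 V) (hloop : ∀ g, ¬ (ends g).IsDiag)
    (w : E → ℝ) (p : Finset E → Prop) : prob ends w p =
      num ends w p / num ends w (fun _ => True) := by
  rw [prob, forests, num, num]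
  congr 1
  · rw [Finset.filter_filter, Finset.sum_filter]
    refine Finset.sum_congr rfl fun F _ => ?_
    simp only [forest_iff hloop F]
  · rw [Finset.sum_filter]
    refine Finset.sum_congr rfl fun F _ => ?_
    simp only [forest_iff hloop F, and_true]

lemma reduced_loopless {V E K : Type*} (ends : E → Sym2 V) (hloop : ∀ g, ¬ (ends g).IsDiag)
    (κ : V → Option K) (T : K → Fin 3 → V) (hT : ∀ k, Function.Injective (T k)) :
    ∀ g, ¬ (reduced ends κ T g).IsDiag := by
  rintro (g | ⟨k, j⟩)
  · intro h
    refine hloop g.1 ?_
    have h' : (Sym2.map Sum.inl (ends g.1) : Sym2 (V ⊕ K)).IsDiag := h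
    revert h'
    induction ends g.1 using Sym2.ind with
    | _ a b => simp
  · fin_cases j <;> simp [reduced] <;> intro h <;> exact absurd (hT k h) (by decide)

/-- Let the vertices of a finite loopless multigraph `G` with edge weights `w ≥ 0` be divided
into kept vertices and pieces, such that the neighbours outside the `k`-th piece of the vertices of
this piece are among three kept vertices `T k 0`, `T k 1`, `T k 2`.
(1) There are weights `u ≥ 0` of the new edges of the reduced multigraph such that the random
spanning forests of the two weighted multigraphs have the same law on the kept edges.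
(2) Kept edges `e ≠ f` are negatively correlated in `G` if `e` or `f` lies on no cycle with 8 or
more edges in the reduced multigraph.
(3) This holds for all `e` if there are at most 7 kept vertices and pieces. -/
theorem result {V E K : Type*} [Fintype V] [Fintype E] [Fintype K] (ends : E → Sym2 V)
    (hloop : ∀ g, ¬ (ends g).IsDiag) (w : E → ℝ) (hw : ∀ g, 0 ≤ w g)
    (κ : V → Option K) (T : K → Fin 3 → V) (hT : ∀ k, Function.Injective (T k))
    (hTκ : ∀ k i, κ (T k i) = none)
    (hκ : ∀ g, ∀ u ∈ ends g, ∀ v ∈ ends g, ∀ k, κ u = some k → κ v = some k ∨ ∃ i, v = T k i) :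
    (∃ u : K × Fin 6 → ℝ, (∀ q, 0 ≤ u q) ∧ ∀ p : Finset {g // Kept ends κ g} → Prop,
      prob ends w (fun F => p (F.subtype (Kept ends κ))) =
        prob (reduced ends κ T) (Sum.elim (fun g => w g) u) (fun F => p F.toLeft)) ∧
    (∀ e f : {g // Kept ends κ g}, e ≠ f → (OnShortCycles (reduced ends κ T) (.inl e) ∨
      OnShortCycles (reduced ends κ T) (.inl f)) →
      prob ends w (fun F => e.1 ∈ F ∧ f.1 ∈ F) ≤
        prob ends w (fun F => e.1 ∈ F) * prob ends w (fun F => f.1 ∈ F)) ∧
    (Fintype.card {v // κ v = none} + Fintype.card K ≤ 7 →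
      ∀ e, OnShortCycles (reduced ends κ T) e) := by
  have hloop' := reduced_loopless ends hloop κ T hT
  obtain ⟨c, u, hc, hu, hlaw⟩ := Pool.Agent.CL.law ends w hw κ T hT hTκ hκ
  have key : ∀ p : Finset {g // Kept ends κ g} → Prop,
      prob ends w (fun F => p (F.subtype (Kept ends κ))) =
        prob (reduced ends κ T) (Sum.elim (fun g => w g) u) (fun F => p F.toLeft) := by
    intro p
    rw [prob_eq ends hloop, prob_eq (reduced ends κ T) hloop']
    have h1 : ∀ q : Finset {g // Kept ends κ g} → Prop,
        num ends w (fun F => q (F.subtype (Kept ends κ))) =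
          c * num (reduced ends κ T) (Sum.elim (fun g => w g) u) (fun F => q F.toLeft) := hlaw
    have h2 := h1 (fun _ => True)
    rw [h1 p, h2]
    exact mul_div_mul_left _ _ hc.ne'
  have hmem : ∀ (e : {g // Kept ends κ g}) (F : Finset E),
      e.1 ∈ F ↔ e ∈ F.subtype (Kept ends κ) := by
    intro e F
    rw [Finset.mem_subtype]
  have hmem' : ∀ (e : {g // Kept ends κ g}) (F : Finset ({g // Kept ends κ g} ⊕ (K × Fin 6))),
      e ∈ F.toLeft ↔ Sum.inl e ∈ F := by
    intro e F
    rw [Finset.mem_toLeft]
  refine ⟨⟨u, hu, key⟩, ?_, ?_⟩
  · intro e f hef hs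
    have hnc : prob (reduced ends κ T) (Sum.elim (fun g => w g) u)
        (fun F => Sum.inl e ∈ F ∧ Sum.inl f ∈ F) ≤
        prob (reduced ends κ T) (Sum.elim (fun g => w g) u) (fun F => Sum.inl e ∈ F) *
        prob (reduced ends κ T) (Sum.elim (fun g => w g) u) (fun F => Sum.inl f ∈ F) := by
      have hw' : ∀ g, 0 ≤ (Sum.elim (fun g : {g // Kept ends κ g} => w g) u) g := by
        rintro (g | g)
        · exact hw g
        · exact hu g
      exact (Pool.Agent.SC.Main.result (reduced ends κ T) hloop' (Sum.inl e) (Sum.inl f)
        (fun h => hef (Sum.inl.inj h))).2.1 hs _ hw'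
    have k1 := key (fun S => e ∈ S ∧ f ∈ S)
    have k2 := key (fun S => e ∈ S)
    have k3 := key (fun S => f ∈ S)
    simp only [← hmem, hmem'] at k1 k2 k3
    rw [k1, k2, k3]
    exact hnc
  · intro hcard e n v c hv _ hends _
    have hran : ∀ i, (∃ x, κ x = none ∧ v i = Sum.inl x) ∨ ∃ k, v i = Sum.inr k := by
      intro i
      have h1 : v i ∈ reduced ends κ T (c i) := by
        rw [hends]
        exact Sym2.mem_mk_left _ _
      rcases hci : c i with g | ⟨k, j⟩
      · rw [hci] at h1
        obtain ⟨x, hx, hx'⟩ := Sym2.mem_map.mp h1
        exact Or.inl ⟨x, g.2 x hx, hx'.symm⟩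
      · rw [hci] at h1
        rcases Pool.Agent.CL.bends_mem ends T k j (v i) h1 with h | ⟨l, h⟩
        · exact Or.inr ⟨k, h⟩
        · exact Or.inl ⟨T k l, hTκ k l, h⟩
    have h1 : (univ.image v).card = n + 2 := by
      rw [Finset.card_image_of_injective _ hv, Finset.card_univ, Fintype.card_fin]
    have h2 : univ.image v ⊆ (univ.image fun x : {v // κ v = none} => (Sum.inl x.1 : V ⊕ K)) ∪
        univ.image (Sum.inr : K → V ⊕ K) := by
      intro y hy
      obtain ⟨i, _, rfl⟩ := mem_image.mp hy
      rw [mem_union]
      rcases hran i with ⟨x, hx, h⟩ | ⟨k, h⟩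
      · exact Or.inl (mem_image.mpr ⟨⟨x, hx⟩, mem_univ _, h.symm⟩)
      · exact Or.inr (mem_image.mpr ⟨k, mem_univ _, h.symm⟩)
    have h3 := (Finset.card_le_card h2).trans (Finset.card_union_le _ _)
    have h4 : (univ.image fun x : {v // κ v = none} => (Sum.inl x.1 : V ⊕ K)).card ≤
        Fintype.card {v // κ v = none} := Finset.card_image_le.trans (le_of_eq Finset.card_univ)
    have h5 : (univ.image (Sum.inr : K → V ⊕ K)).card ≤ Fintype.card K :=
      Finset.card_image_le.trans (le_of_eq Finset.card_univ)
    omega

end Pool.Agent.Results.MP_d90615_co.StarTriangle
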