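import Mathlib
import Pool.Agent.Lib.MP_d90615_co.T3.Adh

/-!
# Negative correlation of all pairs of edges in graphs of tree-width at most three

A random spanning forest `F` of a finite multigraph `G` is chosen with probability proportional to
the product of the weights of its edges.  Let `G` have a tree decomposition, and let `S` be a
subtree such that the bags in `S` have at most four vertices and the edges of the tree that leave
`S` have adhesion at most three.  Then all pairs of edges in the bags of `S` are negatively
correlated.

If `S` is the whole tree, this is the negative correlation of all pairs of edges in graphs of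
tree-width at most three.  If `S` has one bag `{v, a, b}`, and there is one more bag that contains
all vertices, it is the negative correlation of the adjacent edges `va`, `vb` in an arbitrary
graph.
-/

namespace Pool.Agent.Results.MP_d90615_co.TreeWidthThree

open Finset Pool.Agent.Lib.MP_d90615_co
open scoped Classical

/-- The spanning forests of the finite multigraph with edge set `E`, vertex set `V` and end map
`ends`: the sets of edges that contain no cycle. -/
noncomputable def forests {V E : Type*} [Fintype E] (ends : E → Sym2 V) : Finset (Finset E) :=
  univ.filter fun F => ¬ HasCycle ends F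

/-- Probability of the event `p` for a random spanning forest `F` chosen with probability
proportional to the product of the weights of its edges (`w = 1`: uniformly). -/
noncomputable def prob {V E : Type*} [Fintype E] (ends : E → Sym2 V) (w : E → ℝ)
    (p : Finset E → Prop) : ℝ :=
  (∑ F ∈ (forests ends).filter p, ∏ g ∈ F, w g) / ∑ F ∈ forests ends, ∏ g ∈ F, w g

/-- `T` with the bags `B i` is a tree decomposition of the multigraph: `T` is a tree; every edge
has both ends in some bag; for every vertex `v` the nodes `i` with `v ∈ B i` are connected in
`T`. -/
structure IsTreeDecomposition {V E I : Type*} (ends : E → Sym2 V) (T : SimpleGraph I)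
    (B : I → Finset V) : Prop where
  tree : T.IsTree
  edge : ∀ g, ∃ i, ∀ v ∈ ends g, v ∈ B i
  conn : ∀ v, (T.induce {i | v ∈ B i}).Preconnected

/-- `S` is a subtree whose bags have at most `k + 1` vertices, and the edges of the tree that leave
`S` have adhesion at most `k`. -/
structure IsNarrow {V I : Type*} (T : SimpleGraph I) (B : I → Finset V) (S : Set I) (k : ℕ) :
    Prop where
  conn : (T.induce S).Preconnected
  card : ∀ i ∈ S, (B i).card ≤ k + 1
  adhesion : ∀ i ∈ S, ∀ j ∉ S, T.Adj i j → (B i ∩ B j).card ≤ k

theorem result {V E I : Type*} [Fintype V] [Fintype E] [Fintype I] (ends : E → Sym2 V)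
    (hloop : ∀ g, ¬ (ends g).IsDiag) (w : E → ℝ) (hw : ∀ g, 0 ≤ w g) (T : SimpleGraph I)
    (B : I → Finset V) (hB : IsTreeDecomposition ends T B) (S : Set I) (hS : IsNarrow T B S 3)
    (e f : E) (hef : e ≠ f) (he : ∃ i ∈ S, ∀ v ∈ ends e, v ∈ B i)
    (hf : ∃ i ∈ S, ∀ v ∈ ends f, v ∈ B i) :
    prob ends w (fun F => e ∈ F ∧ f ∈ F) ≤
      prob ends w (fun F => e ∈ F) * prob ends w (fun F => f ∈ F) := by
  have h := Pool.Agent.T3P.adh hB.tree ends hloop w hw B hB.edge hB.conn S hS.conn hS.card
    hS.adhesion e f hef he hf
  have h1 : ∀ p : Finset E → Prop, prob ends w p =
      Pool.Agent.T3.num ends w p / Pool.Agent.T3.num ends w (fun _ => True) := by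
    intro p
    unfold prob Pool.Agent.T3.num forests
    rw [Finset.filter_true]
  rw [h1, h1, h1]
  exact h

end Pool.Agent.Results.MP_d90615_co.TreeWidthThree
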